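import Pool.Agent.N549.CG.Stm

/-!
Project HG (helper549), part CG/ASY (helper426): the exponents.

The entropy bounds for binomial coefficients are taken from helper570's Pool.Agent.Y570.LS.Ent.
-/

set_option autoImplicit false
set_option linter.unusedSectionVars false

namespace Pool.Agent.N426.CG

open Finset Filter Topology
open Pool.Agent.N549.CG (V h S_ASY)

/-! ### Entropy bounds (helper570) -/

lemma ent_term {p : ℝ} (hp0 : 0 < p) (hp1 : p < 1) (n w : ℕ) (hw : w ≤ n) :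
    p ^ w * (1 - p) ^ (n - w) =
      Real.exp (w * Real.log p + (n - w) * Real.log (1 - p)) := by
  have h1 : 0 < 1 - p := by linarith
  rw [Real.exp_add, mul_comm (w : ℝ), Real.exp_mul, Real.exp_log hp0]
  have h2 : ((n : ℝ) - w) * Real.log (1 - p) = Real.log (1 - p) * ((n - w : ℕ) : ℝ) := by
    rw [Nat.cast_sub hw]
    ring
  rw [h2, Real.exp_mul, Real.exp_log h1, Real.rpow_natCast, Real.rpow_natCast]

lemma ent_eq (p : ℝ) (n : ℝ) : n * Real.binEntropy p =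
    -(n * p * Real.log p + (n - n * p) * Real.log (1 - p)) := by
  unfold Real.binEntropy
  rw [Real.log_inv, Real.log_inv]
  ring

/-- the upper bound for the volume of a ball -/
lemma vol_le {p : ℝ} (hp0 : 0 < p) (hp1 : p ≤ 1 / 2) (n d : ℕ) (hd : d ≤ n + 1)
    (h : ∀ w < d, (w : ℝ) ≤ n * p) : (∑ w ∈ range d, (n.choose w : ℝ)) ≤ Real.exp (n * Real.binEntropy p) := by
  have h1 : ((p + (1 - p)) ^ n : ℝ) = 1 := by
    rw [add_sub_cancel, one_pow]
  rw [add_pow] at h1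
  have hq : 0 < 1 - p := by linarith
  have h2 : ∑ w ∈ range d, p ^ w * (1 - p) ^ (n - w) * (n.choose w : ℝ) ≤ 1 := by
    refine le_trans ?_ h1.le
    refine Finset.sum_le_sum_of_subset_of_nonneg ?_ fun w _ _ => by positivity
    intro w hw
    simp only [Finset.mem_range] at hw ⊢
    omega
  have h3 : (∑ w ∈ range d, (n.choose w : ℝ)) * Real.exp (-(n * Real.binEntropy p)) ≤ 1 := by
    refine le_trans ?_ h2
    rw [Finset.sum_mul]
    refine Finset.sum_le_sum fun w hw => ?_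
    rw [Finset.mem_range] at hw
    have hw' := h w hw
    rw [ent_term hp0 (by linarith) n w (by omega), mul_comm]
    refine mul_le_mul_of_nonneg_right (Real.exp_le_exp.2 ?_) (Nat.cast_nonneg _)
    rw [ent_eq, neg_neg]
    have h4 : Real.log p ≤ Real.log (1 - p) := Real.log_le_log hp0 (by linarith)
    nlinarith
  rw [Real.exp_neg, ← div_eq_mul_inv, div_le_one (Real.exp_pos _)] at h3
  exact h3

/-- the lower bound for a binomial coefficient -/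
lemma choose_ge {n j : ℕ} (hj : 1 ≤ j) (hjn : j < n) :
    Real.exp (n * Real.binEntropy (j / n)) ≤ (n + 1) * (n.choose j : ℝ) := by
  have hn : (0 : ℝ) < n := by exact_mod_cast (by omega : 0 < n)
  have hj0 : (0 : ℝ) < j := by exact_mod_cast (by omega : 0 < j)
  have hjn' : (j : ℝ) < n := by exact_mod_cast hjn
  obtain ⟨p, hp⟩ : ∃ p : ℝ, p = j / n := ⟨_, rfl⟩
  have hnp : n * p = j := by
    rw [hp]
    field_simp
  have hp0 : 0 < p := by
    rw [hp]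
    positivity
  have hp1 : p < 1 := by
    rw [hp, div_lt_one hn]
    exact hjn'
  have hq : 0 < 1 - p := by linarith
  obtain ⟨a, ha⟩ : ∃ a : ℕ → ℝ, a = fun w => p ^ w * (1 - p) ^ (n - w) * (n.choose w : ℝ) :=
    ⟨_, rfl⟩
  have ha' : ∀ w, a w = p ^ w * (1 - p) ^ (n - w) * (n.choose w : ℝ) := fun w => by rw [ha]
  have ha0 : ∀ w, 0 ≤ a w := by
    intro w
    rw [ha']
    positivity
  have hrec : ∀ w, w < n → a (w + 1) * ((w + 1) * (1 - p)) = a w * ((n - w) * p) := by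
    intro w hw
    rw [ha', ha']
    have h1 : (n.choose (w + 1) : ℝ) * (w + 1) = n.choose w * (n - w) := by
      have := Nat.choose_succ_right_eq n w
      have h2 : ((n.choose (w + 1) * (w + 1) : ℕ) : ℝ) = ((n.choose w * (n - w) : ℕ) : ℝ) := by
        rw [this]
      push_cast [Nat.cast_sub hw.le] at h2
      exact h2
    have h2 : (1 - p) ^ (n - w) = (1 - p) ^ (n - (w + 1)) * (1 - p) := by
      rw [← pow_succ]
      congr 1
      omega
    rw [h2, pow_succ]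
    calc p ^ w * p * (1 - p) ^ (n - (w + 1)) * (n.choose (w + 1) : ℝ) * ((w + 1) * (1 - p))
        = p ^ w * p * (1 - p) ^ (n - (w + 1)) * (1 - p) * ((n.choose (w + 1) : ℝ) * (w + 1)) := by
          ring
      _ = _ := by
          rw [h1]
          ring
  have hup : ∀ w, w < j → a w ≤ a (w + 1) := by
    intro w hw
    have h1 := hrec w (by omega)
    have hwj : (w : ℝ) + 1 ≤ j := by exact_mod_cast hw
    have h2 : ((w : ℝ) + 1) * (1 - p) ≤ (n - w) * p := by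
      have : (n : ℝ) * (((w : ℝ) + 1) * (1 - p)) ≤ n * ((n - w) * p) := by
        have e1 : (n : ℝ) * (((w : ℝ) + 1) * (1 - p)) = (w + 1) * (n - j) := by
          rw [← hnp]
          ring
        have e2 : (n : ℝ) * ((n - w) * p) = (n - w) * j := by
          rw [← hnp]
          ring
        rw [e1, e2]
        nlinarith
      exact le_of_mul_le_mul_left this hn
    have h3 : a w * ((n - w) * p) ≤ a (w + 1) * ((n - w) * p) := by
      rw [← h1]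
      exact mul_le_mul_of_nonneg_left h2 (ha0 _)
    refine le_of_mul_le_mul_right h3 (mul_pos ?_ hp0)
    linarith
  have hdown : ∀ w, j ≤ w → w < n → a (w + 1) ≤ a w := by
    intro w hw hwn
    have h1 := hrec w hwn
    have hwj : (j : ℝ) ≤ w := by exact_mod_cast hw
    have h2 : ((n : ℝ) - w) * p ≤ (w + 1) * (1 - p) := by
      have : (n : ℝ) * ((n - w) * p) ≤ n * ((w + 1) * (1 - p)) := by
        have e1 : (n : ℝ) * (((w : ℝ) + 1) * (1 - p)) = (w + 1) * (n - j) := by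
          rw [← hnp]
          ring
        have e2 : (n : ℝ) * ((n - w) * p) = (n - w) * j := by
          rw [← hnp]
          ring
        rw [e1, e2]
        nlinarith
      exact le_of_mul_le_mul_left this hn
    have h3 : a (w + 1) * ((w + 1) * (1 - p)) ≤ a w * ((w + 1) * (1 - p)) := by
      rw [h1]
      exact mul_le_mul_of_nonneg_left h2 (ha0 _)
    exact le_of_mul_le_mul_right h3 (by positivity)
  have h1 : ∀ w, w ≤ j → a w ≤ a j := by
    intro w hw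
    obtain ⟨k, rfl⟩ := Nat.exists_eq_add_of_le hw
    clear hw
    have : ∀ i, i ≤ k → a w ≤ a (w + i) := by
      intro i
      induction i with
      | zero => intro _; exact le_rfl
      | succ i ih =>
        intro hi
        exact (ih (by omega)).trans (hup (w + i) (by omega))
    exact this k le_rfl
  have h2 : ∀ w, j ≤ w → w ≤ n → a w ≤ a j := by
    intro w hw
    induction w, hw using Nat.le_induction with
    | base => intro _; exact le_rfl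
    | succ w hw ih =>
      intro hwn
      exact (hdown w hw (by omega)).trans (ih (by omega))
  have h3 : (1 : ℝ) ≤ (n + 1) * a j := by
    have h4 : ((p + (1 - p)) ^ n : ℝ) = 1 := by
      rw [add_sub_cancel, one_pow]
    rw [add_pow] at h4
    refine h4.symm.le.trans ?_
    calc ∑ w ∈ range (n + 1), p ^ w * (1 - p) ^ (n - w) * (n.choose w : ℝ)
        ≤ ∑ _w ∈ range (n + 1), a j := by
          refine Finset.sum_le_sum fun w hw => ?_
          rw [← ha']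
          rcases le_total w j with h | h
          · exact h1 w h
          · exact h2 w h (by have := Finset.mem_range.1 hw; omega)
      _ = (n + 1) * a j := by
          rw [Finset.sum_const, Finset.card_range, nsmul_eq_mul]
          push_cast
          ring
  rw [ha', ent_term hp0 hp1 n j hjn.le] at h3
  rw [← hp, ent_eq, hnp, Real.exp_neg, inv_le_comm₀ (Real.exp_pos _)]
  · rw [inv_le_iff_one_le_mul₀]
    · calc (1 : ℝ) ≤ _ := h3
        _ = _ := by ring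
    · have : (0 : ℝ) < n.choose j := by exact_mod_cast Nat.choose_pos hjn.le
      positivity
  · have : (0 : ℝ) < n.choose j := by exact_mod_cast Nat.choose_pos hjn.le
    positivity

/-! ### Consequences -/

lemma V_cast (n D : ℕ) : (V n D : ℝ) = ∑ w ∈ range (D + 1), (n.choose w : ℝ) := by
  unfold V
  push_cast
  rfl

lemma V_le {n j : ℕ} (hj : 1 ≤ j) (hjn : 2 * j ≤ n) :
    (V n j : ℝ) ≤ Real.exp (n * h (j / n)) := by
  have hn : (0 : ℝ) < n := by exact_mod_cast (by omega : 0 < n)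
  have hj0 : (0 : ℝ) < j := by exact_mod_cast (by omega : 0 < j)
  have h2 : 2 * (j : ℝ) ≤ n := by exact_mod_cast hjn
  rw [V_cast]
  refine vol_le (by positivity) ?_ n (j + 1) (by omega) fun w hw => ?_
  · rw [div_le_iff₀ hn]
    linarith
  · rw [mul_div_cancel₀ _ hn.ne']
    exact_mod_cast Nat.lt_succ_iff.1 hw

lemma choose_le_V (n j : ℕ) : (n.choose j : ℝ) ≤ V n j := by
  rw [V_cast]
  exact Finset.single_le_sum (f := fun w => (n.choose w : ℝ)) (fun w _ => Nat.cast_nonneg _)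
    (Finset.self_mem_range_succ j)

lemma choose_le {n j : ℕ} (hj : 1 ≤ j) (hjn : 2 * j ≤ n) :
    (n.choose j : ℝ) ≤ Real.exp (n * h (j / n)) := (choose_le_V n j).trans (V_le hj hjn)

lemma one_le {n j : ℕ} (hj : 1 ≤ j) (hjn : j < n) :
    1 ≤ Real.exp (Real.log (n + 1) - n * h (j / n)) * (n.choose j : ℝ) := by
  have h1 : Real.exp (n * h (j / n)) ≤ (n + 1) * (n.choose j : ℝ) := choose_ge hj hjn
  have hn : (0 : ℝ) < n + 1 := by positivity
  rw [Real.exp_sub, Real.exp_log hn, div_mul_eq_mul_div, le_div_iff₀ (Real.exp_pos _), one_mul]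
  exact h1

lemma one_le_V {n j : ℕ} (hj : 1 ≤ j) (hjn : j < n) :
    1 ≤ Real.exp (Real.log (n + 1) - n * h (j / n)) * (V n j : ℝ) :=
  (one_le hj hjn).trans (mul_le_mul_of_nonneg_left (choose_le_V n j) (Real.exp_pos _).le)

lemma h_cont : Continuous h := Real.binEntropy_continuous

lemma pos_of {a b : ℝ} (h : 0 < a / b) (hb : 0 < b) : 0 < a := by
  have h2 := mul_pos h hb
  rwa [div_mul_cancel₀ _ hb.ne'] at h2

/-! ### The filter -/

/-- `n` tends to infinity and `D / n` to `δ` -/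
noncomputable def L (δ : ℝ) : Filter (ℕ × ℕ) :=
  comap (fun p : ℕ × ℕ => p.1) atTop ⊓ comap (fun p : ℕ × ℕ => (p.2 : ℝ) / p.1) (𝓝 δ)

variable {δ : ℝ}

lemma tn : Tendsto (fun p : ℕ × ℕ => (p.1 : ℝ)) (L δ) atTop :=
  tendsto_natCast_atTop_atTop.comp (tendsto_comap.mono_left inf_le_left)

lemma tr : Tendsto (fun p : ℕ × ℕ => (p.2 : ℝ) / p.1) (L δ) (𝓝 δ) :=
  tendsto_comap.mono_left inf_le_right

lemma ofL {P : ℕ → ℕ → Prop} (hP : ∀ᶠ p in L δ, P p.1 p.2) :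
    ∃ η : ℝ, 0 < η ∧ ∃ n₀ : ℕ, ∀ n D : ℕ, n₀ ≤ n → |(D : ℝ) - δ * n| ≤ η * n → P n D := by
  have hb := ((atTop_basis (α := ℕ)).comap (fun p : ℕ × ℕ => p.1)).inf
    ((Metric.nhds_basis_closedBall (x := δ)).comap (fun p : ℕ × ℕ => (p.2 : ℝ) / p.1))
  obtain ⟨⟨n₀, η⟩, ⟨_, hη⟩, hm⟩ := hb.eventually_iff.1 hP
  refine ⟨η, hη, max n₀ 1, fun n D hn hD => ?_⟩
  have hn1 : 1 ≤ n := le_trans (le_max_right _ _) hn
  have hn0 : (0 : ℝ) < n := by exact_mod_cast hn1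
  refine @hm (n, D) ⟨?_, ?_⟩
  · exact Set.mem_Ici.2 (le_trans (le_max_left _ _) hn)
  · show dist ((D : ℝ) / n) δ ≤ η
    rw [Real.dist_eq]
    have e : (D : ℝ) / n - δ = (D - δ * n) / n := by
      field_simp
    rw [e, abs_div, abs_of_pos hn0, div_le_iff₀ hn0]
    exact hD

lemma t1n : Tendsto (fun p : ℕ × ℕ => 1 / (p.1 : ℝ)) (L δ) (𝓝 0) :=
  tendsto_const_nhds.div_atTop tn

lemma tn1 : Tendsto (fun p : ℕ × ℕ => ((p.1 : ℝ) - 1) / p.1) (L δ) (𝓝 1) := by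
  have h1 : Tendsto (fun p : ℕ × ℕ => 1 - 1 / (p.1 : ℝ)) (L δ) (𝓝 (1 - 0)) :=
    tendsto_const_nhds.sub t1n
  rw [sub_zero] at h1
  refine h1.congr' ?_
  filter_upwards [tn.eventually_gt_atTop 0] with p hp
  rw [sub_div, div_self hp.ne']

lemma tlog1 : Tendsto (fun p : ℕ × ℕ => Real.log ((p.1 : ℝ) + 1) / p.1) (L δ) (𝓝 0) := by
  have h1 := Real.tendsto_pow_log_div_mul_add_atTop 1 (-1) 1 one_ne_zero
  have h2 := h1.comp ((tendsto_atTop_add_const_right (L δ) 1 tn))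
  refine h2.congr fun p => ?_
  simp only [Function.comp]
  rw [pow_one]
  congr 1
  ring

lemma tlog : Tendsto (fun p : ℕ × ℕ => Real.log (p.1 : ℝ) / p.1) (L δ) (𝓝 0) := by
  have h1 := Real.tendsto_pow_log_div_mul_add_atTop 1 0 1 one_ne_zero
  have h2 := h1.comp (tn (δ := δ))
  refine h2.congr fun p => ?_
  simp only [Function.comp]
  rw [pow_one]
  congr 1
  ring

lemma tdiv1 {f : ℕ × ℕ → ℝ} {c : ℝ} (hf : Tendsto (fun p => f p / p.1) (L δ) (𝓝 c)) :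
    Tendsto (fun p => f p / ((p.1 : ℝ) - 1)) (L δ) (𝓝 c) := by
  have h1 := hf.div tn1 one_ne_zero
  rw [div_one] at h1
  refine h1.congr' ?_
  filter_upwards [tn.eventually_gt_atTop 1] with p hp
  have h2 : (p.1 : ℝ) - 1 ≠ 0 := by linarith
  have h3 : (p.1 : ℝ) ≠ 0 := by linarith
  simp only [Pi.div_apply]
  field_simp

lemma fin_ {E : ℕ × ℕ → ℝ} {l ε : ℝ} (hε : 0 < ε) (hE : Tendsto E (L δ) (𝓝 l)) :
    ∀ᶠ p in L δ, E p * p.1 ≤ (l + ε) * p.1 := by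
  filter_upwards [hE.eventually_le_const (by linarith : l < l + ε)] with p hp
  exact mul_le_mul_of_nonneg_right hp (Nat.cast_nonneg _)

/-! ### The three parts -/

section parts

variable (h0 : 0 < δ) (h1 : δ < 1 / 2)

include h0 h1

lemma ev_size : ∀ᶠ p in L δ, 2 ≤ p.2 ∧ 2 * p.2 + 1 < p.1 := by
  have e1 : ∀ᶠ p in L δ, δ / 2 < (p.2 : ℝ) / p.1 :=
    tr.eventually_const_lt (by linarith)
  have e2 : ∀ᶠ p in L δ, (p.2 : ℝ) / p.1 < (δ + 1 / 2) / 2 :=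
    tr.eventually_lt_const (by linarith)
  filter_upwards [e1, e2, tn.eventually_gt_atTop (4 / δ), tn.eventually_gt_atTop (1 / (1 / 2 - δ)),
    tn.eventually_gt_atTop 0] with p a1 a2 a3 a4 a5
  rw [lt_div_iff₀ a5] at a1
  rw [div_lt_iff₀ a5] at a2
  rw [div_lt_iff₀ h0] at a3
  rw [div_lt_iff₀ (by linarith)] at a4
  constructor
  · have : (2 : ℝ) < p.2 := by nlinarith
    exact_mod_cast this.le
  · have : 2 * (p.2 : ℝ) + 1 < p.1 := by nlinarith
    exact_mod_cast this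

lemma part3 {ε : ℝ} (hε : 0 < ε) : ∀ᶠ p in L δ,
    (V p.1 p.2 : ℝ) / 2 ^ p.1 ≤ Real.exp (-((Real.log 2 - h δ) - ε) * p.1) := by
  have t1 : Tendsto (fun p : ℕ × ℕ => h ((p.2 : ℝ) / p.1) - Real.log 2) (L δ)
      (𝓝 (h δ - Real.log 2)) := ((h_cont.tendsto δ).comp tr).sub tendsto_const_nhds
  filter_upwards [ev_size h0 h1, fin_ hε t1] with p ⟨hp1, hp2⟩ hp3
  have h2 : (2 : ℝ) ^ p.1 = Real.exp (p.1 * Real.log 2) := by
    rw [mul_comm, Real.exp_mul, Real.exp_log (by norm_num), Real.rpow_natCast]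
  rw [h2, div_le_iff₀ (Real.exp_pos _), ← Real.exp_add]
  refine (V_le (by omega) (by omega)).trans (Real.exp_le_exp.2 ?_)
  linarith

lemma part2 {ε : ℝ} (hε : 0 < ε) : ∀ᶠ p in L δ,
    (2 : ℝ) ^ (p.2 + 1) * V (p.1 - p.2) (p.2 / 2) / V p.1 p.2 ≤
    Real.exp (-(h δ - δ * Real.log 2 - (1 - δ) * h (δ / (2 * (1 - δ))) - ε) * p.1) := by
  have hd : (1 : ℝ) - δ ≠ 0 := by linarith
  have t1 : Tendsto (fun p : ℕ × ℕ => ((p.2 / 2 : ℕ) : ℝ) / p.1) (L δ) (𝓝 (δ / 2)) := by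
    have a1 : Tendsto (fun p : ℕ × ℕ => (p.2 : ℝ) / p.1 / 2 - 1 / p.1) (L δ) (𝓝 (δ / 2 - 0)) :=
      (tr.div_const 2).sub t1n
    rw [sub_zero] at a1
    refine tendsto_of_tendsto_of_tendsto_of_le_of_le' a1 (tr.div_const 2) ?_ ?_
    · filter_upwards [tn.eventually_gt_atTop 0] with p hp
      have b1 : p.2 ≤ 2 * (p.2 / 2) + 1 := by omega
      have b2 : (p.2 : ℝ) ≤ 2 * ((p.2 / 2 : ℕ) : ℝ) + 1 := by exact_mod_cast b1
      rw [div_div, mul_comm (p.1 : ℝ) 2, ← div_div, ← sub_div]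
      refine div_le_div_of_nonneg_right ?_ hp.le
      linarith
    · filter_upwards [tn.eventually_gt_atTop 0] with p hp
      have b1 : 2 * (p.2 / 2) ≤ p.2 := by omega
      have b2 : 2 * ((p.2 / 2 : ℕ) : ℝ) ≤ (p.2 : ℝ) := by exact_mod_cast b1
      rw [div_div, mul_comm (p.1 : ℝ) 2, ← div_div]
      refine div_le_div_of_nonneg_right ?_ hp.le
      linarith
  have t2 : Tendsto (fun p : ℕ × ℕ => 1 - (p.2 : ℝ) / p.1) (L δ) (𝓝 (1 - δ)) :=
    tendsto_const_nhds.sub tr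
  have t3 : Tendsto (fun p : ℕ × ℕ => ((p.2 / 2 : ℕ) : ℝ) / ((p.1 : ℝ) - p.2)) (L δ)
      (𝓝 (δ / (2 * (1 - δ)))) := by
    have a1 := t1.div t2 hd
    rw [div_div] at a1
    refine a1.congr' ?_
    filter_upwards [ev_size h0 h1] with p ⟨hp1, hp2⟩
    have b1 : (0 : ℝ) < p.1 := by exact_mod_cast (by omega : 0 < p.1)
    have b2 : (p.2 : ℝ) < p.1 := by exact_mod_cast (by omega : p.2 < p.1)
    simp only [Pi.div_apply]
    have b3 : (p.1 : ℝ) - p.2 ≠ 0 := by linarith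
    have b4 : (1 : ℝ) - (p.2 : ℝ) / p.1 = ((p.1 : ℝ) - p.2) / p.1 := by
      field_simp
    rw [b4]
    field_simp
  have t4 : Tendsto (fun p : ℕ × ℕ => ((p.2 : ℝ) / p.1 + 1 / p.1) * Real.log 2 +
      (1 - (p.2 : ℝ) / p.1) * h (((p.2 / 2 : ℕ) : ℝ) / ((p.1 : ℝ) - p.2)) +
      Real.log ((p.1 : ℝ) + 1) / p.1 - h ((p.2 : ℝ) / p.1)) (L δ)
      (𝓝 ((δ + 0) * Real.log 2 + (1 - δ) * h (δ / (2 * (1 - δ))) + 0 - h δ)) :=
    ((((tr.add t1n).mul_const _).add (t2.mul ((h_cont.tendsto _).comp t3))).add tlog1).sub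
      ((h_cont.tendsto δ).comp tr)
  filter_upwards [ev_size h0 h1, fin_ hε t4, tn.eventually_gt_atTop 0] with p ⟨hp1, hp2⟩ hp3 hp4
  have hsub : ((p.1 - p.2 : ℕ) : ℝ) = (p.1 : ℝ) - p.2 := by
    rw [Nat.cast_sub (by omega)]
  have b1 : (V (p.1 - p.2) (p.2 / 2) : ℝ) ≤
      Real.exp (((p.1 : ℝ) - p.2) * h (((p.2 / 2 : ℕ) : ℝ) / ((p.1 : ℝ) - p.2))) := by
    have := V_le (n := p.1 - p.2) (j := p.2 / 2) (by omega) (by omega)
    rwa [hsub] at this
  have b2 : (2 : ℝ) ^ (p.2 + 1) = Real.exp (((p.2 : ℝ) + 1) * Real.log 2) := by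
    rw [mul_comm, Real.exp_mul, Real.exp_log (by norm_num), ← Nat.cast_add_one,
      Real.rpow_natCast]
  have b3 := one_le_V (n := p.1) (j := p.2) (by omega) (by omega)
  have hV : (0 : ℝ) < V p.1 p.2 := by
    by_contra hneg
    have : (V p.1 p.2 : ℝ) ≤ 0 := not_lt.1 hneg
    nlinarith [Real.exp_pos (Real.log ((p.1 : ℝ) + 1) - p.1 * h ((p.2 : ℝ) / p.1))]
  rw [div_le_iff₀ hV]
  calc (2 : ℝ) ^ (p.2 + 1) * V (p.1 - p.2) (p.2 / 2)
      ≤ Real.exp (((p.2 : ℝ) + 1) * Real.log 2) *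
        Real.exp (((p.1 : ℝ) - p.2) * h (((p.2 / 2 : ℕ) : ℝ) / ((p.1 : ℝ) - p.2))) := by
        rw [b2]
        exact mul_le_mul_of_nonneg_left b1 (Real.exp_pos _).le
    _ ≤ Real.exp (((p.2 : ℝ) + 1) * Real.log 2) *
        Real.exp (((p.1 : ℝ) - p.2) * h (((p.2 / 2 : ℕ) : ℝ) / ((p.1 : ℝ) - p.2))) *
        (Real.exp (Real.log ((p.1 : ℝ) + 1) - p.1 * h ((p.2 : ℝ) / p.1)) * V p.1 p.2) :=
        le_mul_of_one_le_right (by positivity) b3
    _ = Real.exp ((((p.2 : ℝ) / p.1 + 1 / p.1) * Real.log 2 +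
      (1 - (p.2 : ℝ) / p.1) * h (((p.2 / 2 : ℕ) : ℝ) / ((p.1 : ℝ) - p.2)) +
      Real.log ((p.1 : ℝ) + 1) / p.1 - h ((p.2 : ℝ) / p.1)) * p.1) * V p.1 p.2 := by
        rw [← mul_assoc, ← Real.exp_add, ← Real.exp_add]
        congr 2
        field_simp
        ring
    _ ≤ _ := by
        refine mul_le_mul_of_nonneg_right (Real.exp_le_exp.2 (hp3.trans (le_of_eq ?_))) hV.le
        ring

/-- the number `y₀` -/
noncomputable def xx (p : ℕ × ℕ) : ℝ :=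
  ((p.1 : ℝ) - 1 - 2 * Real.sqrt ((p.2 : ℝ) * (p.1 + 1 - p.2))) / 2

omit h0 h1 in
lemma txx : Tendsto (fun p : ℕ × ℕ => xx p / p.1) (L δ)
    (𝓝 (1 / 2 - Real.sqrt (δ * (1 - δ)))) := by
  have t1 : Tendsto (fun p : ℕ × ℕ => 1 + 1 / (p.1 : ℝ) - (p.2 : ℝ) / p.1) (L δ)
      (𝓝 (1 + 0 - δ)) := (tendsto_const_nhds.add t1n).sub tr
  have t2 : Tendsto (fun p : ℕ × ℕ => (((p.1 : ℝ) - 1) / p.1 -
      2 * Real.sqrt ((p.2 : ℝ) / p.1 * (1 + 1 / (p.1 : ℝ) - (p.2 : ℝ) / p.1))) / 2) (L δ)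
      (𝓝 ((1 - 2 * Real.sqrt (δ * (1 + 0 - δ))) / 2)) :=
    (tn1.sub (((Real.continuous_sqrt.tendsto _).comp (tr.mul t1)).const_mul 2)).div_const 2
  have e : (1 - 2 * Real.sqrt (δ * (1 + 0 - δ))) / 2 = 1 / 2 - Real.sqrt (δ * (1 - δ)) := by
    rw [add_zero]
    ring
  rw [e] at t2
  refine t2.congr' ?_
  filter_upwards [tn.eventually_gt_atTop 0] with p hp
  have e1 : (p.2 : ℝ) / p.1 * (1 + 1 / (p.1 : ℝ) - (p.2 : ℝ) / p.1) =
      (p.2 : ℝ) * (p.1 + 1 - p.2) / (p.1 : ℝ) ^ 2 := by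
    field_simp
  rw [e1, Real.sqrt_div' _ (by positivity), Real.sqrt_sq hp.le]
  unfold xx
  field_simp

lemma c_pos : 0 < 1 / 2 - Real.sqrt (δ * (1 - δ)) := by
  have : Real.sqrt (δ * (1 - δ)) < 1 / 2 := by
    rw [Real.sqrt_lt' (by norm_num)]
    nlinarith
  linarith

lemma ty : Tendsto (fun p : ℕ × ℕ => (⌊xx p⌋₊ : ℝ) / p.1) (L δ)
    (𝓝 (1 / 2 - Real.sqrt (δ * (1 - δ)))) := by
  have t0 := txx (δ := δ)
  have a1 : Tendsto (fun p : ℕ × ℕ => xx p / p.1 - 1 / p.1) (L δ)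
      (𝓝 (1 / 2 - Real.sqrt (δ * (1 - δ)) - 0)) := t0.sub t1n
  rw [sub_zero] at a1
  refine tendsto_of_tendsto_of_tendsto_of_le_of_le' a1 t0 ?_ ?_
  · filter_upwards [tn.eventually_gt_atTop 0] with p hp
    rw [← sub_div]
    refine div_le_div_of_nonneg_right ?_ hp.le
    exact (Nat.sub_one_lt_floor _).le
  · filter_upwards [tn.eventually_gt_atTop 0, t0.eventually_const_lt (c_pos h0 h1)] with p hp hp2
    refine div_le_div_of_nonneg_right (Nat.floor_le ?_) hp.le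
    exact (pos_of hp2 hp).le

lemma part1 {ε : ℝ} (hε : 0 < ε) : ∀ᶠ p in L δ,
    ∃ y₀ : ℕ, 2 * y₀ < p.1 ∧
      4 * (p.2 : ℝ) * (p.1 + 1 - p.2) ≤ ((p.1 : ℝ) - 1 - 2 * y₀) ^ 2 ∧
      Real.sqrt (2 ^ (p.1 - 1) * ((p.1 - 1).choose p.2) / ((p.1 - 1).choose y₀)) / V p.1 p.2 ≤
      Real.exp (-((h δ + h (1 / 2 - Real.sqrt (δ * (1 - δ))) - Real.log 2) / 2 - ε) * p.1) := by
  obtain ⟨c, hc⟩ : ∃ c : ℝ, c = 1 / 2 - Real.sqrt (δ * (1 - δ)) := ⟨_, rfl⟩
  have hc0 : 0 < c := by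
    rw [hc]
    exact c_pos h0 h1
  have hc1 : c < 1 := by
    have := Real.sqrt_nonneg (δ * (1 - δ))
    rw [hc]
    linarith
  have t0 := txx (δ := δ)
  have t1 := ty h0 h1
  rw [← hc] at t0 t1
  have t2 := tdiv1 t1
  have t3 := tdiv1 (tr (δ := δ))
  have t4 : Tendsto (fun p : ℕ × ℕ => 1 / 2 * (((p.1 : ℝ) - 1) / p.1 * (Real.log 2 +
      h ((p.2 : ℝ) / ((p.1 : ℝ) - 1)) - h ((⌊xx p⌋₊ : ℝ) / ((p.1 : ℝ) - 1))) +
      Real.log (p.1 : ℝ) / p.1) + Real.log ((p.1 : ℝ) + 1) / p.1 - h ((p.2 : ℝ) / p.1)) (L δ)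
      (𝓝 (1 / 2 * (1 * (Real.log 2 + h δ - h c) + 0) + 0 - h δ)) :=
    ((((tn1.mul ((tendsto_const_nhds.add ((h_cont.tendsto _).comp t3)).sub
      ((h_cont.tendsto _).comp t2))).add tlog).const_mul (1 / 2)).add tlog1).sub
      ((h_cont.tendsto δ).comp tr)
  filter_upwards [ev_size h0 h1, fin_ hε t4, tn.eventually_gt_atTop 1,
    t0.eventually_const_lt hc0, t2.eventually_const_lt hc0, t2.eventually_lt_const hc1,
    tn.eventually_gt_atTop (2 / c), t1.eventually_const_lt (by linarith : c / 2 < c)] with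
    p ⟨hp1, hp2⟩ hp3 hp4 hp5 hp6 hp7 hp8 hp9
  have hp0 : (0 : ℝ) < p.1 := by linarith
  have hx0 : 0 < xx p := pos_of hp5 hp0
  have hfl := Nat.floor_le hx0.le
  have hs0 := Real.sqrt_nonneg ((p.2 : ℝ) * (p.1 + 1 - p.2))
  have hD : (p.2 : ℝ) < p.1 := by exact_mod_cast (by omega : p.2 < p.1)
  have hsq : Real.sqrt ((p.2 : ℝ) * (p.1 + 1 - p.2)) ^ 2 = (p.2 : ℝ) * (p.1 + 1 - p.2) := by
    rw [Real.sq_sqrt]
    have : (0 : ℝ) ≤ p.2 := Nat.cast_nonneg _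
    nlinarith
  have hge : 2 * Real.sqrt ((p.2 : ℝ) * (p.1 + 1 - p.2)) ≤ (p.1 : ℝ) - 1 - 2 * ⌊xx p⌋₊ := by
    have : xx p = ((p.1 : ℝ) - 1 - 2 * Real.sqrt ((p.2 : ℝ) * (p.1 + 1 - p.2))) / 2 := rfl
    linarith
  have hy1 : 1 ≤ ⌊xx p⌋₊ := by
    rw [div_lt_iff₀ hc0] at hp8
    rw [lt_div_iff₀ hp0] at hp9
    have : (0 : ℝ) < ⌊xx p⌋₊ := by nlinarith
    exact_mod_cast this
  have hn1 : ((p.1 - 1 : ℕ) : ℝ) = (p.1 : ℝ) - 1 := by
    rw [Nat.cast_sub (by omega)]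
    norm_num
  have hy2 : ⌊xx p⌋₊ < p.1 - 1 := by
    rw [div_lt_iff₀ (by linarith), one_mul] at hp7
    rw [← hn1] at hp7
    exact_mod_cast hp7
  refine ⟨⌊xx p⌋₊, ?_, ?_, ?_⟩
  · have : 2 * (⌊xx p⌋₊ : ℝ) < p.1 := by linarith
    exact_mod_cast this
  · calc 4 * (p.2 : ℝ) * (p.1 + 1 - p.2)
        = (2 * Real.sqrt ((p.2 : ℝ) * (p.1 + 1 - p.2))) ^ 2 := by
          rw [mul_pow, hsq]
          ring
      _ ≤ _ := pow_le_pow_left₀ (by positivity) hge 2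
  · have b1 : ((p.1 - 1).choose p.2 : ℝ) ≤
        Real.exp (((p.1 : ℝ) - 1) * h ((p.2 : ℝ) / ((p.1 : ℝ) - 1))) := by
      have := choose_le (n := p.1 - 1) (j := p.2) (by omega) (by omega)
      rwa [hn1] at this
    have b2 : 1 ≤ Real.exp (Real.log (p.1 : ℝ) - ((p.1 : ℝ) - 1) *
        h ((⌊xx p⌋₊ : ℝ) / ((p.1 : ℝ) - 1))) * ((p.1 - 1).choose ⌊xx p⌋₊ : ℝ) := by
      have := one_le (n := p.1 - 1) (j := ⌊xx p⌋₊) hy1 hy2
      rwa [hn1, sub_add_cancel] at this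
    have b3 : (2 : ℝ) ^ (p.1 - 1) = Real.exp (((p.1 : ℝ) - 1) * Real.log 2) := by
      rw [mul_comm, Real.exp_mul, Real.exp_log (by norm_num), ← hn1, Real.rpow_natCast]
    have hch : (0 : ℝ) < ((p.1 - 1).choose ⌊xx p⌋₊ : ℝ) := by
      exact_mod_cast Nat.choose_pos hy2.le
    obtain ⟨A, hA⟩ : ∃ A : ℝ, A = ((p.1 : ℝ) - 1) * Real.log 2 +
      ((p.1 : ℝ) - 1) * h ((p.2 : ℝ) / ((p.1 : ℝ) - 1)) + (Real.log (p.1 : ℝ) - ((p.1 : ℝ) - 1) *
        h ((⌊xx p⌋₊ : ℝ) / ((p.1 : ℝ) - 1))) := ⟨_, rfl⟩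
    have b4 : 2 ^ (p.1 - 1) * ((p.1 - 1).choose p.2 : ℝ) / ((p.1 - 1).choose ⌊xx p⌋₊) ≤
        Real.exp A := by
      rw [div_le_iff₀ hch, hA, Real.exp_add, Real.exp_add, mul_assoc (Real.exp _ * Real.exp _)]
      calc (2 : ℝ) ^ (p.1 - 1) * ((p.1 - 1).choose p.2 : ℝ) ≤
          Real.exp (((p.1 : ℝ) - 1) * Real.log 2) *
            Real.exp (((p.1 : ℝ) - 1) * h ((p.2 : ℝ) / ((p.1 : ℝ) - 1))) := by
            rw [b3]
            exact mul_le_mul_of_nonneg_left b1 (Real.exp_pos _).le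
        _ ≤ _ := le_mul_of_one_le_right (by positivity) b2
    have b5 : Real.sqrt (2 ^ (p.1 - 1) * ((p.1 - 1).choose p.2 : ℝ) /
        ((p.1 - 1).choose ⌊xx p⌋₊)) ≤ Real.exp (A / 2) := by
      refine Real.sqrt_le_iff.2 ⟨(Real.exp_pos _).le, b4.trans (le_of_eq ?_)⟩
      rw [sq, ← Real.exp_add]
      congr 1
      ring
    have b6 := one_le_V (n := p.1) (j := p.2) (by omega) (by omega)
    have hV : (0 : ℝ) < V p.1 p.2 := by
      by_contra hneg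
      have : (V p.1 p.2 : ℝ) ≤ 0 := not_lt.1 hneg
      nlinarith [Real.exp_pos (Real.log ((p.1 : ℝ) + 1) - p.1 * h ((p.2 : ℝ) / p.1))]
    rw [div_le_iff₀ hV]
    calc Real.sqrt (2 ^ (p.1 - 1) * ((p.1 - 1).choose p.2 : ℝ) / ((p.1 - 1).choose ⌊xx p⌋₊))
        ≤ Real.exp (A / 2) := b5
      _ ≤ Real.exp (A / 2) *
        (Real.exp (Real.log ((p.1 : ℝ) + 1) - p.1 * h ((p.2 : ℝ) / p.1)) * V p.1 p.2) :=
          le_mul_of_one_le_right (Real.exp_pos _).le b6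
      _ = Real.exp ((1 / 2 * (((p.1 : ℝ) - 1) / p.1 * (Real.log 2 +
          h ((p.2 : ℝ) / ((p.1 : ℝ) - 1)) - h ((⌊xx p⌋₊ : ℝ) / ((p.1 : ℝ) - 1))) +
          Real.log (p.1 : ℝ) / p.1) + Real.log ((p.1 : ℝ) + 1) / p.1 -
          h ((p.2 : ℝ) / p.1)) * p.1) * V p.1 p.2 := by
          rw [← mul_assoc, ← Real.exp_add, hA]
          congr 2
          field_simp
          ring
      _ ≤ _ := by
          refine mul_le_mul_of_nonneg_right (Real.exp_le_exp.2 (hp3.trans (le_of_eq ?_))) hV.le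
          rw [hc]
          ring

end parts

/-- **CG/ASY** -/
theorem asy : S_ASY := by
  intro δ ε h0 h1 hε
  exact ofL (P := fun n D => (∃ y₀ : ℕ, 2 * y₀ < n ∧
    4 * (D : ℝ) * (n + 1 - D) ≤ ((n : ℝ) - 1 - 2 * y₀) ^ 2 ∧
    Real.sqrt (2 ^ (n - 1) * ((n - 1).choose D) / ((n - 1).choose y₀)) / V n D ≤
      Real.exp (-((h δ + h (1 / 2 - Real.sqrt (δ * (1 - δ))) - Real.log 2) / 2 - ε) * n)) ∧
  (2 : ℝ) ^ (D + 1) * V (n - D) (D / 2) / V n D ≤
    Real.exp (-(h δ - δ * Real.log 2 - (1 - δ) * h (δ / (2 * (1 - δ))) - ε) * n) ∧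
  (V n D : ℝ) / 2 ^ n ≤ Real.exp (-((Real.log 2 - h δ) - ε) * n))
    ((part1 h0 h1 hε).and ((part2 h0 h1 hε).and (part3 h0 h1 hε)))

end Pool.Agent.N426.CG
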